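import Pool.Agent.H48.RG.Targets

/-! Decay on all balls, from decay on the unit ball. -/

set_option autoImplicit false

namespace Pool.Agent.H65.RG

open MeasureTheory Metric Set Filter Topology Pool.Agent.H87.SN Pool.Agent.H48.RG
open scoped ContDiff RealInnerProductSpace ENNReal

noncomputable section

/-- the affine map -/
def af {n : ℕ} (y : E n) (r : ℝ) (x : E n) : E n := y + r • x

/-- its inverse -/
def afi {n : ℕ} (y : E n) (r : ℝ) (z : E n) : E n := r⁻¹ • (z - y)

section

variable {n : ℕ} {y : E n} {r : ℝ}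

theorem af_afi (hr : 0 < r) (z : E n) : af y r (afi y r z) = z := by
  unfold af afi
  rw [smul_smul, mul_inv_cancel₀ hr.ne', one_smul]
  abel

theorem afi_af (hr : 0 < r) (x : E n) : afi y r (af y r x) = x := by
  unfold af afi
  rw [add_sub_cancel_left, smul_smul, inv_mul_cancel₀ hr.ne', one_smul]

theorem af_cont : Continuous (af y r) := by
  unfold af
  fun_prop

theorem afi_cont : Continuous (afi y r) := by
  unfold afi
  fun_prop

theorem af_dist (hr : 0 < r) (x z : E n) : dist (af y r x) (af y r z) = r * dist x z := by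
  unfold af
  rw [dist_add_left, dist_smul₀, Real.norm_of_nonneg hr.le]

theorem af_mem (hr : 0 < r) (x z : E n) (s : ℝ) :
    af y r x ∈ ball (af y r z) (r * s) ↔ x ∈ ball z s := by
  rw [mem_ball, mem_ball, af_dist hr, mul_lt_mul_iff_right₀ hr]

theorem af_mem1 (hr : 0 < r) (x : E n) : af y r x ∈ ball y r ↔ x ∈ ball (0 : E n) 1 := by
  have h := af_mem (y := y) hr x 0 1
  rw [mul_one] at h
  have e : af y r 0 = y := by
    unfold af
    simp
  rw [e] at h
  exact h

/-- change of variables -/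
theorem cv {F : Type*} [NormedAddCommGroup F] [NormedSpace ℝ F] (hr : 0 < r) (g : E n → F) :
    ∫ x, g (af y r x) = (r ^ n)⁻¹ • ∫ x, g x := by
  have h := Measure.integral_comp_smul (volume : Measure (E n)) (fun z => g (y + z)) r
  rw [finrank_euclideanSpace, Fintype.card_fin, abs_of_pos (by positivity),
    integral_add_left_eq_self] at h
  exact h

/-- change of variables on balls -/
theorem cvb {F : Type*} [NormedAddCommGroup F] [NormedSpace ℝ F] (hr : 0 < r) (g : E n → F)
    (z : E n) (s : ℝ) :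
    ∫ x in ball z s, g (af y r x) = (r ^ n)⁻¹ • ∫ x in ball (af y r z) (r * s), g x := by
  rw [← integral_indicator measurableSet_ball, ← integral_indicator measurableSet_ball,
    ← cv (y := y) hr]
  congr 1
  funext x
  by_cases hx : x ∈ ball z s
  · rw [indicator_of_mem hx, indicator_of_mem ((af_mem hr x z s).2 hx)]
  · rw [indicator_of_notMem hx, indicator_of_notMem (fun h => hx ((af_mem hr x z s).1 h))]

/-- the image measure -/
theorem af_map (hr : 0 < r) : (volume : Measure (E n)).map (af y r) =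
    ENNReal.ofReal ((r ^ n)⁻¹) • volume := by
  have h1 : af y r = (fun z => y + z) ∘ fun x : E n => r • x := rfl
  rw [h1, ← Measure.map_map (measurable_const_add y) (measurable_const_smul r),
    Measure.map_addHaar_smul _ hr.ne', finrank_euclideanSpace, Fintype.card_fin,
    abs_of_pos (by positivity), Measure.map_smul, map_add_left_eq_self]

theorem af_emb (hr : 0 < r) : MeasurableEmbedding (af y r) := by
  let h : E n ≃ₜ E n :=
    { toFun := af y r
      invFun := afi y r
      left_inv := afi_af hr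
      right_inv := af_afi hr
      continuous_toFun := af_cont
      continuous_invFun := afi_cont }
  exact h.measurableEmbedding

theorem af_map_res (hr : 0 < r) : (volume.restrict (ball (0 : E n) 1)).map (af y r) =
    ENNReal.ofReal ((r ^ n)⁻¹) • volume.restrict (ball y r) := by
  have h1 : af y r ⁻¹' ball y r = ball (0 : E n) 1 :=
    Set.ext fun x => af_mem1 (y := y) hr x
  rw [← h1, ← (af_emb hr).restrict_map, af_map hr, Measure.restrict_smul]

theorem af_qmp (hr : 0 < r) : Measure.QuasiMeasurePreserving (af y r)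
    (volume.restrict (ball (0 : E n) 1)) (volume.restrict (ball y r)) := by
  refine ⟨af_cont.measurable, ?_⟩
  rw [af_map_res hr]
  exact Measure.smul_absolutelyContinuous

theorem af_memLp (hr : 0 < r) {F : Type*} [NormedAddCommGroup F] {g : E n → F}
    (hg : MemLp g 2 (volume.restrict (ball y r))) :
    MemLp (fun x => g (af y r x)) 2 (volume.restrict (ball (0 : E n) 1)) := by
  have h1 : MemLp g 2 ((volume.restrict (ball (0 : E n) 1)).map (af y r)) := by
    rw [af_map_res hr]
    have h2 : ENNReal.ofReal ((r ^ n)⁻¹) ≠ ⊤ := ENNReal.ofReal_ne_top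
    generalize ENNReal.ofReal ((r ^ n)⁻¹) = c at h2 ⊢
    exact hg.smul_measure h2
  have h2 : MemLp (g ∘ af y r) 2 (volume.restrict (ball (0 : E n) 1)) :=
    h1.comp_of_map af_cont.measurable.aemeasurable
  exact h2

/-- transport of test functions -/
theorem tst_af (hr : 0 < r) {φ : E n → ℝ} (hφ : Tst (ball (0 : E n) 1) φ) :
    Tst (ball y r) (fun z => φ (afi y r z)) ∧
      ∀ x v, fderiv ℝ (fun z => φ (afi y r z)) (af y r x) v = r⁻¹ * fderiv ℝ φ x v := by
  obtain ⟨h1, h2, h3⟩ := hφ
  have hc : ContDiff ℝ ∞ (afi y r) := by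
    unfold afi
    fun_prop
  have hts : tsupport (fun z => φ (afi y r z)) ⊆ af y r '' tsupport φ := by
    have h4 : IsClosed (af y r '' tsupport φ) := (h2.image af_cont).isClosed
    refine closure_minimal ?_ h4
    intro z hz
    refine ⟨afi y r z, subset_tsupport _ hz, af_afi hr z⟩
  refine ⟨⟨h1.comp hc, ?_, ?_⟩, ?_⟩
  · exact HasCompactSupport.intro (h2.image (af_cont (y := y) (r := r))) fun z hz => by
      by_contra h4
      exact hz (hts (subset_tsupport _ h4))
  · refine hts.trans ?_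
    rintro _ ⟨x, hx, rfl⟩
    exact (af_mem1 hr x).2 (h3 hx)
  · intro x v
    have h5 : HasFDerivAt (afi y r) (r⁻¹ • ContinuousLinearMap.id ℝ (E n)) (af y r x) := by
      unfold afi
      exact ((hasFDerivAt_id (𝕜 := ℝ) (af y r x)).sub_const y).const_smul r⁻¹
    have h6 : HasFDerivAt φ (fderiv ℝ φ x) (afi y r (af y r x)) := by
      rw [afi_af hr]
      exact (h1.differentiable (by simp) x).hasFDerivAt
    have h7 := h6.comp (af y r x) h5
    have h8 : fderiv ℝ (fun z => φ (afi y r z)) (af y r x) =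
        (fderiv ℝ φ x).comp (r⁻¹ • ContinuousLinearMap.id ℝ (E n)) := h7.fderiv
    rw [h8]
    simp

/-- transport of functions with weak gradients -/
theorem wb_af (hr : 0 < r) {f : E n → ℝ} {D : E n → E n} (h : WB (ball y r) f D) :
    WB (ball (0 : E n) 1) (fun x => f (af y r x)) (fun x => r • D (af y r x)) := by
  refine ⟨h.ms.comp_quasiMeasurePreserving (af_qmp hr), ?_, (af_memLp hr h.d2).const_smul r, ?_⟩
  · obtain ⟨B, hB⟩ := h.bd
    exact ⟨B, (af_qmp hr).ae hB⟩
  · intro φ hφ v
    obtain ⟨h1, h2⟩ := tst_af (y := y) hr hφ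
    have h3 := h.wg _ h1 v
    have h4 : ∫ x, fderiv ℝ φ x v * f (af y r x) =
        r * ((r ^ n)⁻¹ • ∫ z, fderiv ℝ (fun z => φ (afi y r z)) z v * f z) := by
      rw [← cv (y := y) hr, ← integral_const_mul]
      congr 1
      funext x
      rw [h2]
      field_simp
    have h5 : ∫ x, φ x * ⟪r • D (af y r x), v⟫ =
        r * ((r ^ n)⁻¹ • ∫ z, φ (afi y r z) * ⟪D z, v⟫) := by
      rw [← cv (y := y) hr, ← integral_const_mul]
      congr 1
      funext x
      rw [afi_af hr, real_inner_smul_left]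
      ring
    rw [h4, h5, h3, smul_neg, mul_neg]

/-- transport of the system -/
theorem sys_af {m : ℕ} {K : ℝ} (hr : 0 < r) {u : Fin m → E n → ℝ} {D : Fin m → E n → E n}
    {Om : Fin m → Fin m → E n → E n} (h : Sys K (ball y r) u D Om) :
    Sys K (ball (0 : E n) 1) (fun k x => u k (af y r x)) (fun k x => r • D k (af y r x))
      (fun i j x => r • Om i j (af y r x)) := by
  refine ⟨fun k => wb_af hr (h.wb k), fun i j => ?_, fun i j x => ?_, fun i j => ?_,
    fun i φ hφ => ?_⟩
  · exact ((h.ms i j).comp_quasiMeasurePreserving (af_qmp hr)).const_smul r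
  · show r • Om i j (af y r x) = - (r • Om j i (af y r x))
    rw [h.anti i j, smul_neg]
  · filter_upwards [(af_qmp (y := y) hr).ae (h.le i j)] with x hx
    show ‖r • Om i j (af y r x)‖ ≤ K * ∑ k, ‖r • D k (af y r x)‖
    simp_rw [norm_smul, Real.norm_of_nonneg hr.le]
    rw [← Finset.mul_sum]
    calc r * ‖Om i j (af y r x)‖ ≤ r * (K * ∑ k, ‖D k (af y r x)‖) := by gcongr
      _ = _ := by ring
  · obtain ⟨h1, h2⟩ := tst_af (y := y) hr hφ
    have h3 := h.eq i _ h1
    have h4 : ∫ x, fderiv ℝ φ x (r • D i (af y r x)) =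
        (r * r) * ((r ^ n)⁻¹ • ∫ z, fderiv ℝ (fun z => φ (afi y r z)) z (D i z)) := by
      rw [← cv (y := y) hr, ← integral_const_mul]
      congr 1
      funext x
      rw [h2, map_smul, smul_eq_mul]
      field_simp
    have h5 : ∫ x, φ x * ∑ j, ⟪r • Om i j (af y r x), r • D j (af y r x)⟫ =
        (r * r) * ((r ^ n)⁻¹ • ∫ z, φ (afi y r z) * ∑ j, ⟪Om i j z, D j z⟫) := by
      rw [← cv (y := y) hr, ← integral_const_mul]
      congr 1
      funext x
      rw [afi_af hr]
      simp_rw [real_inner_smul_left, real_inner_smul_right]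
      rw [← Finset.mul_sum, ← Finset.mul_sum]
      ring
    show ∫ x, fderiv ℝ φ x (r • D i (af y r x)) =
      ∫ x, φ x * ∑ j, ⟪r • Om i j (af y r x), r • D j (af y r x)⟫
    rw [h4, h5, h3]

end

theorem pf_SCL (hD : T_DEC) : T_SCL := by
  intro n m K hn hK
  obtain ⟨C, hC, h⟩ := hD n m K hn hK
  refine ⟨C, hC, fun θ hθ hθ4 => ?_⟩
  obtain ⟨ε, hε, h⟩ := h θ hθ hθ4
  refine ⟨ε, hε, ?_⟩
  intro y r u D Om M hr hS hM hMor hen k
  have hrn : 0 < r ^ n := by positivity
  have hrr : r * r ^ (n - 1) = r ^ n := by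
    obtain ⟨l, rfl⟩ : ∃ l, n = l + 1 := ⟨n - 1, by omega⟩
    rw [Nat.add_sub_cancel, pow_succ]
    ring
  have hnb : ∀ (k : Fin m) (z : E n) (s : ℝ), ∫ x in ball z s, ‖r • D k (af y r x)‖ =
      r * ((r ^ n)⁻¹ * ∫ x in ball (af y r z) (r * s), ‖D k x‖) := by
    intro k z s
    rw [← smul_eq_mul (r ^ n)⁻¹, ← cvb (y := y) hr, ← integral_const_mul]
    congr 1
    funext x
    rw [norm_smul, Real.norm_of_nonneg hr.le]
  have h1 := h (fun k x => u k (af y r x)) (fun k x => r • D k (af y r x))
    (fun i j x => r • Om i j (af y r x)) M (sys_af hr hS) hM ?_ ?_ k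
  · have h2 : ∫ x in ball (0 : E n) θ, ‖r • D k (af y r x)‖ ≤ C * θ ^ n * M := h1
    rw [hnb] at h2
    have e : af y r (0 : E n) = y := by
      unfold af
      simp
    rw [e, mul_comm r θ] at h2
    set I : ℝ := ∫ x in ball y (θ * r), ‖D k x‖ with hI
    have h3 : I = r ^ n * r⁻¹ * (r * ((r ^ n)⁻¹ * I)) := by
      field_simp
    calc I = r ^ n * r⁻¹ * (r * ((r ^ n)⁻¹ * I)) := h3
      _ ≤ r ^ n * r⁻¹ * (C * θ ^ n * M) := by gcongr
      _ = C * θ ^ n * M * r ^ (n - 1) := by
          rw [← hrr]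
          field_simp
  · intro k z s hs hzs
    show ∫ x in ball z s, ‖r • D k (af y r x)‖ ≤ M * s ^ (n - 1)
    rw [hnb]
    have hsub : ball (af y r z) (r * s) ⊆ ball y r := by
      intro w hw
      rw [← af_afi (y := y) hr w] at hw ⊢
      rw [af_mem hr] at hw
      rw [af_mem1 hr]
      exact hzs hw
    have h4 := hMor k (af y r z) (r * s) (by positivity) hsub
    calc r * ((r ^ n)⁻¹ * ∫ x in ball (af y r z) (r * s), ‖D k x‖)
        ≤ r * ((r ^ n)⁻¹ * (M * (r * s) ^ (n - 1))) := by gcongr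
      _ = (r * r ^ (n - 1)) * (r ^ n)⁻¹ * (M * s ^ (n - 1)) := by
          rw [mul_pow]
          ring
      _ = M * s ^ (n - 1) := by
          rw [hrr, mul_inv_cancel₀ hrn.ne', one_mul]
  · show ∑ k, ∫ x in ball (0 : E n) 1, ‖r • D k (af y r x)‖ ^ 2 ≤ ε
    have h5 : ∀ k, ∫ x in ball (0 : E n) 1, ‖r • D k (af y r x)‖ ^ 2 =
        r ^ 2 * ((r ^ n)⁻¹ * ∫ x in ball y r, ‖D k x‖ ^ 2) := by
      intro k
      have e : af y r (0 : E n) = y := by
        unfold af
        simp
      have h6 := cvb (y := y) hr (fun x => ‖D k x‖ ^ 2) 0 1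
      rw [e, mul_one, smul_eq_mul] at h6
      rw [← h6, ← integral_const_mul]
      congr 1
      funext x
      rw [norm_smul, Real.norm_of_nonneg hr.le, mul_pow]
    simp_rw [h5]
    rw [← Finset.mul_sum, ← Finset.mul_sum]
    calc r ^ 2 * ((r ^ n)⁻¹ * ∑ k, ∫ x in ball y r, ‖D k x‖ ^ 2)
        ≤ r ^ 2 * ((r ^ n)⁻¹ * (ε * (r ^ n / r ^ 2))) := by gcongr
      _ = ε := by field_simp

end

end Pool.Agent.H65.RG
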