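import Pool.Agent.H48.RG.Targets

/-! Algebra and integrability in the gauge. -/

set_option autoImplicit false

namespace Pool.Agent.H65.RG

open MeasureTheory Metric Set Filter Topology Pool.Agent.H87.SN Pool.Agent.H48.RG
open scoped ContDiff RealInnerProductSpace ENNReal

noncomputable section

/-- algebra at one point -/
theorem wwp_pt {n m : ℕ} (p : Fin m → Fin m → ℝ) (d : Fin m → E n)
    (h : ∀ i j, ∑ k, p k i * p k j = if i = j then 1 else 0) :
    (∀ i j, |p i j| ≤ 1) ∧ (∀ k, d k = ∑ j, p k j • ∑ l, p l j • d l) ∧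
      (∀ j, ‖∑ k, p k j • d k‖ ≤ ∑ k, ‖d k‖) ∧
      ∀ k, ‖d k‖ ≤ ∑ j, ‖∑ l, p l j • d l‖ := by
  have h1 : ∀ i j, |p i j| ≤ 1 := by
    intro i j
    have h2 := h j j
    rw [if_pos rfl] at h2
    have h3 : p i j * p i j ≤ ∑ k, p k j * p k j :=
      Finset.single_le_sum (f := fun k => p k j * p k j) (fun k _ => mul_self_nonneg _)
        (Finset.mem_univ i)
    rw [h2] at h3
    exact abs_le_one_iff_mul_self_le_one.2 h3
  have h4 : ∀ k l, ∑ j, p k j * p l j = if k = l then 1 else 0 := by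
    set A : Matrix (Fin m) (Fin m) ℝ := Matrix.of p with hA
    have h5 : A.transpose * A = 1 := by
      ext i j
      rw [Matrix.mul_apply, Matrix.one_apply]
      simpa [hA, Matrix.transpose_apply] using h i j
    have h6 : A * A.transpose = 1 := mul_eq_one_comm.1 h5
    intro k l
    have h7 := congrFun (congrFun h6 k) l
    rw [Matrix.mul_apply, Matrix.one_apply] at h7
    simpa [hA, Matrix.transpose_apply] using h7
  have h8 : ∀ k, d k = ∑ j, p k j • ∑ l, p l j • d l := by
    intro k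
    calc d k = ∑ l, (if k = l then (1 : ℝ) else 0) • d l := by
          simp
      _ = ∑ l, (∑ j, p k j * p l j) • d l := by
          refine Finset.sum_congr rfl fun l _ => ?_
          rw [h4]
      _ = ∑ l, ∑ j, (p k j * p l j) • d l := by
          refine Finset.sum_congr rfl fun l _ => ?_
          rw [Finset.sum_smul]
      _ = ∑ j, ∑ l, (p k j * p l j) • d l := Finset.sum_comm
      _ = _ := by
          refine Finset.sum_congr rfl fun j _ => ?_
          rw [Finset.smul_sum]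
          refine Finset.sum_congr rfl fun l _ => ?_
          rw [smul_smul]
  refine ⟨h1, h8, ?_, ?_⟩
  · intro j
    refine (norm_sum_le _ _).trans (Finset.sum_le_sum fun k _ => ?_)
    rw [norm_smul, Real.norm_eq_abs]
    exact mul_le_of_le_one_left (norm_nonneg _) (h1 k j)
  · intro k
    calc ‖d k‖ = ‖∑ j, p k j • ∑ l, p l j • d l‖ := congrArg norm (h8 k)
      _ ≤ ∑ j, ‖p k j • ∑ l, p l j • d l‖ := norm_sum_le _ _
      _ ≤ _ := by
          refine Finset.sum_le_sum fun j _ => ?_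
          rw [norm_smul, Real.norm_eq_abs]
          exact mul_le_of_le_one_left (norm_nonneg _) (h1 k j)

theorem pf_WWP : T_WWP := by
  intro n m K u D Om P DP hS hG
  have hae : ∀ᵐ x ∂(volume.restrict (ball (0 : E n) 1)), (∀ i j, |P i j x| ≤ 1) ∧
      (∀ k, D k x = ∑ j, P k j x • ww P D j x) ∧ (∀ j, ‖ww P D j x‖ ≤ ∑ k, ‖D k x‖) ∧
      ∀ k, ‖D k x‖ ≤ ∑ j, ‖ww P D j x‖ := by
    filter_upwards [hG.orth] with x hx
    exact wwp_pt (fun i j => P i j x) (fun k => D k x) hx
  have hD2 : ∀ k, MemLp (D k) 2 (volume.restrict (ball (0 : E n) 1)) := fun k => (hS.wb k).d2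
  have hsum : MemLp (fun x => ∑ k, ‖D k x‖) 2 (volume.restrict (ball (0 : E n) 1)) :=
    memLp_finsetSum _ fun k _ => (hD2 k).norm
  have hPm : ∀ i j, AEStronglyMeasurable (P i j) (volume.restrict (ball (0 : E n) 1)) :=
    fun i j => (hG.wb i j).ms
  have hOm : ∀ i j, MemLp (Om i j) 2 (volume.restrict (ball (0 : E n) 1)) := by
    intro i j
    exact (hsum.const_mul K).mono' (hS.ms i j) (hS.le i j)
  have hww : ∀ j, MemLp (ww P D j) 2 (volume.restrict (ball (0 : E n) 1)) := by
    intro j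
    refine hsum.mono' ?_ ?_
    · have h1 : AEStronglyMeasurable (fun x => ∑ k, P k j x • D k x)
          (volume.restrict (ball (0 : E n) 1)) :=
        Finset.aestronglyMeasurable_fun_sum _ fun k _ => (hPm k j).smul (hD2 k).1
      exact h1
    · filter_upwards [hae] with x hx
      exact hx.2.2.1 j
  have hEE : ∀ i j, MemLp (EE P DP Om i j) 2 (volume.restrict (ball (0 : E n) 1)) := by
    intro i j
    have h1 : MemLp (fun x => ∑ k, P k i x • DP k j x) 2 (volume.restrict (ball (0 : E n) 1)) := by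
      refine memLp_finsetSum _ fun k _ => ?_
      refine ((hG.wb k j).d2.norm).mono' ((hPm k i).smul (hG.wb k j).d2.1) ?_
      filter_upwards [hae] with x hx
      show ‖P k i x • DP k j x‖ ≤ ‖DP k j x‖
      rw [norm_smul, Real.norm_eq_abs]
      exact mul_le_of_le_one_left (norm_nonneg _) (hx.1 k i)
    have h2 : MemLp (fun x => ∑ k, ∑ l, (P k i x * P l j x) • Om k l x) 2
        (volume.restrict (ball (0 : E n) 1)) := by
      refine memLp_finsetSum _ fun k _ => memLp_finsetSum _ fun l _ => ?_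
      refine ((hOm k l).norm).mono' (((hPm k i).mul (hPm l j)).smul (hOm k l).1) ?_
      filter_upwards [hae] with x hx
      show ‖(P k i x * P l j x) • Om k l x‖ ≤ ‖Om k l x‖
      rw [norm_smul, norm_mul, Real.norm_eq_abs, Real.norm_eq_abs]
      have h3 := hx.1 k i
      have h4 := hx.1 l j
      have h5 : |P k i x| * |P l j x| ≤ 1 := mul_le_one₀ h3 (abs_nonneg _) h4
      exact mul_le_of_le_one_left (norm_nonneg _) h5
    exact h1.add h2
  refine ⟨hae, hww, hEE, hOm, ?_⟩
  have hint : ∀ k, Integrable (fun x => ‖D k x‖ ^ 2) (volume.restrict (ball (0 : E n) 1)) :=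
    fun k => (hD2 k).norm.integrable_sq
  have hone : ∀ i j, ∫ x in ball (0 : E n) 1, ‖Om i j x‖ ^ 2 ≤
      m * K ^ 2 * ∑ k, ∫ x in ball (0 : E n) 1, ‖D k x‖ ^ 2 := by
    intro i j
    rw [← integral_finsetSum _ fun k _ => hint k, ← integral_const_mul]
    refine integral_mono_ae (hOm i j).norm.integrable_sq
      ((integrable_finsetSum _ fun k _ => hint k).const_mul _) ?_
    filter_upwards [hS.le i j] with x hx
    have h1 : ‖Om i j x‖ ^ 2 ≤ (K * ∑ k, ‖D k x‖) ^ 2 :=
      pow_le_pow_left₀ (norm_nonneg _) hx 2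
    have h2 : (∑ k, ‖D k x‖) ^ 2 ≤ m * ∑ k, ‖D k x‖ ^ 2 := by
      have := sq_sum_le_card_mul_sum_sq (s := (Finset.univ : Finset (Fin m)))
        (f := fun k => ‖D k x‖)
      simpa using this
    calc ‖Om i j x‖ ^ 2 ≤ (K * ∑ k, ‖D k x‖) ^ 2 := h1
      _ = K ^ 2 * (∑ k, ‖D k x‖) ^ 2 := by ring
      _ ≤ K ^ 2 * (m * ∑ k, ‖D k x‖ ^ 2) := by gcongr
      _ = m * K ^ 2 * ∑ k, ‖D k x‖ ^ 2 := by ring
  calc ∑ i, ∑ j, ∫ x in ball (0 : E n) 1, ‖Om i j x‖ ^ 2
      ≤ ∑ _i : Fin m, ∑ _j : Fin m, m * K ^ 2 * ∑ k, ∫ x in ball (0 : E n) 1, ‖D k x‖ ^ 2 :=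
        Finset.sum_le_sum fun i _ => Finset.sum_le_sum fun j _ => hone i j
    _ = _ := by
        rw [Finset.sum_const, Finset.sum_const, Finset.card_univ, Fintype.card_fin, nsmul_eq_mul,
          nsmul_eq_mul]
        ring

end

end Pool.Agent.H65.RG
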